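import Pool.Agent.K7.H32.FT.Stm2

/-!
# Project FT, job JG: adjointness of `E` and `F`, positivity of the form, negative weights
-/

set_option autoImplicit false

namespace Pool.Agent.K7.H33.FT

open Finset Pool.Agent.H550R3.Jones Pool.Agent.W715.VC Pool.Agent.K7.H32.FT

variable {N : ℕ}

section sm

variable {M : Type} [AddCommMonoid M]

lemma sm_succ (n : ℕ) (h : List (Fin N) → M) :
    sm (n + 1) h = ∑ a : Fin N, sm n (fun s => h (a :: s)) := rfl

lemma sm_nil (h : List (Fin N) → M) : sm 0 h = h [] := rfl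

lemma sm_congr (n : ℕ) : ∀ (h h' : List (Fin N) → M), (∀ s, s.length = n → h s = h' s) →
    sm n h = sm n h' := by
  induction n with
  | zero => intro h h' H; exact H [] rfl
  | succ n ih =>
    intro h h' H
    rw [sm_succ, sm_succ]
    exact Finset.sum_congr rfl fun a _ => ih _ _ fun s hs => H _ (by simp [hs])

lemma sm_add (n : ℕ) : ∀ (h h' : List (Fin N) → M),
    sm n (fun s => h s + h' s) = sm n h + sm n h' := by
  induction n with
  | zero => intro h h'; rfl
  | succ n ih =>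
    intro h h'
    simp only [sm_succ, ih, Finset.sum_add_distrib]

lemma sm_zero (n : ℕ) : sm n (fun _ : List (Fin N) => (0 : M)) = 0 := by
  induction n with
  | zero => rfl
  | succ n ih => simp only [sm_succ, ih, Finset.sum_const_zero]

end sm

lemma sm_mul (n : ℕ) : ∀ (c : ℂ) (h : List (Fin N) → ℂ),
    sm n (fun s => c * h s) = c * sm n h := by
  induction n with
  | zero => intro c h; rfl
  | succ n ih =>
    intro c h
    simp only [sm_succ, ih, Finset.mul_sum]

lemma sm_re (n : ℕ) : ∀ (h : List (Fin N) → ℂ), (sm n h).re = sm n (fun s => (h s).re) := by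
  induction n with
  | zero => intro h; rfl
  | succ n ih =>
    intro h
    simp only [sm_succ, Complex.re_sum, ih]

lemma sm_im (n : ℕ) : ∀ (h : List (Fin N) → ℂ), (sm n h).im = sm n (fun s => (h s).im) := by
  induction n with
  | zero => intro h; rfl
  | succ n ih =>
    intro h
    simp only [sm_succ, Complex.im_sum, ih]

lemma sm_nonneg (n : ℕ) : ∀ (h : List (Fin N) → ℝ), (∀ s, s.length = n → 0 ≤ h s) →
    0 ≤ sm n h := by
  induction n with
  | zero => intro h H; exact H [] rfl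
  | succ n ih =>
    intro h H
    rw [sm_succ]
    exact Finset.sum_nonneg fun a _ => ih _ fun s hs => H _ (by simp [hs])

lemma sm_eq_zero (n : ℕ) : ∀ (h : List (Fin N) → ℝ), (∀ s, s.length = n → 0 ≤ h s) →
    sm n h = 0 → ∀ s, s.length = n → h s = 0 := by
  induction n with
  | zero =>
    intro h H H0 s hs
    rw [List.length_eq_zero_iff] at hs
    subst hs
    exact H0
  | succ n ih =>
    intro h H H0 s hs
    rcases s with _ | ⟨a, s⟩
    · simp at hs
    · rw [sm_succ] at H0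
      have h1 := (Finset.sum_eq_zero_iff_of_nonneg (s := Finset.univ)
        (f := fun a : Fin N => sm n (fun s => h (a :: s)))
        (fun a _ => sm_nonneg n _ fun s hs => H _ (by simp [hs]))).1 H0 a (Finset.mem_univ a)
      exact ih (fun s => h (a :: s)) (fun s hs => H _ (by simp [hs])) h1 s (by simpa using hs)

/-! ### Positivity of the weights -/

lemma rb_pos {x : ℝ} (hx : 1 < x) {k : ℤ} (hk : 0 < k) : 0 < rb x k := by
  unfold rb
  have h1 : (1 : ℝ) < x ^ k := one_lt_zpow₀ hx hk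
  have h2 : x ^ (-k) < 1 := by
    rw [zpow_neg]
    exact inv_lt_one_of_one_lt₀ h1
  linarith

lemma rbf_pos {x : ℝ} (hx : 1 < x) (n : ℕ) : 0 < rbf x n := by
  unfold rbf
  exact Finset.prod_pos fun j _ => rb_pos hx (by positivity)

lemma rbf_succ (x : ℝ) (n : ℕ) : rbf x (n + 1) = rbf x n * rb x ((n : ℤ) + 1) := by
  unfold rbf
  rw [Finset.prod_range_succ]

lemma GG_cons (x : ℝ) (a : Fin N) (s : List (Fin N)) : GG x (a :: s) =
    1 / (rbf x a * rbf x (N - 1 - a)) * x ^ (-(2 * (a : ℕ) * isum s)) * GG x s := rfl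

lemma GG_pos {x : ℝ} (hx : 1 < x) (s : List (Fin N)) : 0 < GG x s := by
  induction s with
  | nil => exact one_pos
  | cons a s ih =>
    rw [GG_cons]
    have h1 := rbf_pos hx a
    have h2 := rbf_pos hx (N - 1 - a)
    have h3 : (0 : ℝ) < x ^ (-(2 * (a : ℕ) * isum s)) := zpow_pos (by linarith) _
    positivity

/-- the weight of one strand -/
noncomputable def gam (N : ℕ) (x : ℝ) (a : ℕ) : ℝ := 1 / (rbf x a * rbf x (N - 1 - a))

lemma gam_step {x : ℝ} (hx : 1 < x) {a : ℕ} (ha : a + 1 < N) :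
    gam N x a * rb x ((N : ℤ) - 1 - a) = gam N x (a + 1) * rb x ((a : ℤ) + 1) := by
  unfold gam
  obtain ⟨m, hm⟩ : ∃ m, N = a + 2 + m := ⟨N - (a + 2), by omega⟩
  have h1 : N - 1 - a = m + 1 := by omega
  have h2 : N - 1 - (a + 1) = m := by omega
  rw [h1, h2, rbf_succ, rbf_succ]
  have e : (N : ℤ) - 1 - a = m + 1 := by rw [hm]; push_cast; ring
  rw [e]
  have p1 := rbf_pos hx a
  have p2 := rbf_pos hx m
  have p3 : 0 < rb x ((a : ℤ) + 1) := rb_pos hx (by positivity)
  have p4 : 0 < rb x ((m : ℤ) + 1) := rb_pos hx (by positivity)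
  field_simp

lemma conj_zpow_real (x : ℝ) (k : ℤ) : (starRingEnd ℂ) ((x : ℂ) ^ k) = (x : ℂ) ^ k := by
  rw [map_zpow₀, Complex.conj_ofReal]

lemma br_real (x : ℝ) (k : ℤ) : br (x : ℂ) k = ((rb x k : ℝ) : ℂ) := by
  unfold br rb
  push_cast
  rfl

lemma conj_br_real (x : ℝ) (k : ℤ) : (starRingEnd ℂ) (br (x : ℂ) k) = br (x : ℂ) k := by
  rw [br_real, Complex.conj_ofReal]

/-- shift of the summation index -/
lemma sum_shift (F : Fin N → Fin N → ℂ) :
    (∑ a : Fin N, if h : (a : ℕ) + 1 < N then F a ⟨a + 1, h⟩ else 0) =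
      ∑ b : Fin N, if h : 0 < (b : ℕ) then
        F ⟨b - 1, lt_of_le_of_lt (Nat.sub_le _ _) b.2⟩ b else 0 := by
  have h1 : ∀ a : Fin N, (if h : (a : ℕ) + 1 < N then F a ⟨a + 1, h⟩ else 0) =
      ∑ b : Fin N, if (b : ℕ) = a + 1 then F a b else 0 := by
    intro a
    split_ifs with h
    · rw [sum_eq_single (⟨a + 1, h⟩ : Fin N)]
      · simp
      · intro b _ hb
        rw [if_neg]
        intro h2
        exact hb (Fin.ext h2)
      · intro h2; exact absurd (mem_univ _) h2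
    · symm
      refine sum_eq_zero fun b _ => if_neg ?_
      have := b.2
      omega
  have h2 : ∀ b : Fin N, (if h : 0 < (b : ℕ) then
      F ⟨b - 1, lt_of_le_of_lt (Nat.sub_le _ _) b.2⟩ b else 0) =
      ∑ a : Fin N, if (b : ℕ) = a + 1 then F a b else 0 := by
    intro b
    split_ifs with h
    · rw [sum_eq_single (⟨b - 1, lt_of_le_of_lt (Nat.sub_le _ _) b.2⟩ : Fin N)]
      · rw [if_pos]
        simp only
        omega
      · intro a _ ha
        rw [if_neg]
        intro h2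
        exact ha (Fin.ext (by simp only; omega))
      · intro h2; exact absurd (mem_univ _) h2
    · symm
      refine sum_eq_zero fun a _ => if_neg ?_
      omega
  rw [sum_congr rfl fun a _ => h1 a, sum_congr rfl fun b _ => h2 b, sum_comm]

/-- the form with an additional factor -/
lemma adj_gen {x : ℝ} (hx : 1 < x) (n : ℕ) : ∀ (φ : ℤ → ℂ) (f g : St N),
    sm n (fun s => φ (isum s) * ((GG x s : ℝ) : ℂ) * (starRingEnd ℂ (eo (x : ℂ) f s) * g s)) =
      (x : ℂ) ^ (((n : ℤ) - 1) * ((N : ℤ) - 1)) *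
        sm n (fun s => φ (isum s - 1) * ((GG x s : ℝ) : ℂ) *
          (starRingEnd ℂ (f s) * fo (x : ℂ) g s)) := by
  have hx0 : (x : ℂ) ≠ 0 := by
    have : x ≠ 0 := by linarith
    exact_mod_cast this
  induction n with
  | zero =>
    intro φ f g
    rw [sm_nil, sm_nil, eo_nil, fo_nil]
    simp
  | succ n ih =>
    intro φ f g
    rw [sm_succ, sm_succ, mul_sum]
    -- first and second parts of the left hand side
    have L : ∀ a : Fin N, sm n (fun s => φ (isum (a :: s)) * ((GG x (a :: s) : ℝ) : ℂ) *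
        (starRingEnd ℂ (eo (x : ℂ) f (a :: s)) * g (a :: s))) =
        (if h : (a : ℕ) + 1 < N then
          (fun (a b : Fin N) => sm n (fun s => (x : ℂ) ^ ((n : ℤ) * ((N : ℤ) - 1)) *
            (((gam N x b * rb x (b : ℕ) : ℝ) : ℂ) * φ ((b : ℕ) + isum s - 1) *
            (x : ℂ) ^ (-(2 * (b : ℕ) * isum s)) * ((GG x s : ℝ) : ℂ) *
            (starRingEnd ℂ (f (b :: s)) * g (a :: s))))) a ⟨a + 1, h⟩ else 0) +
        (x : ℂ) ^ (((n : ℤ) - 1) * ((N : ℤ) - 1)) * (((gam N x a : ℝ) : ℂ) *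
          sm n (fun s => φ ((a : ℕ) + isum s - 1) * (x : ℂ) ^ (-(2 * (a : ℕ) * (isum s - 1))) *
            ((GG x s : ℝ) : ℂ) * (starRingEnd ℂ (f (a :: s)) * fo (x : ℂ) (cm a g) s))) := by
      intro a
      have h2 := ih (fun y => φ ((a : ℕ) + y) * (x : ℂ) ^ (-(2 * (a : ℕ) * y))) (cm a f) (cm a g)
      have h3 : (x : ℂ) ^ (((n : ℤ) - 1) * ((N : ℤ) - 1)) * (((gam N x a : ℝ) : ℂ) *
          sm n (fun s => φ ((a : ℕ) + isum s - 1) * (x : ℂ) ^ (-(2 * (a : ℕ) * (isum s - 1))) *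
            ((GG x s : ℝ) : ℂ) * (starRingEnd ℂ (f (a :: s)) * fo (x : ℂ) (cm a g) s))) =
          ((gam N x a : ℝ) : ℂ) * sm n (fun s => φ ((a : ℕ) + isum s) *
            (x : ℂ) ^ (-(2 * (a : ℕ) * isum s)) * ((GG x s : ℝ) : ℂ) *
            (starRingEnd ℂ (eo (x : ℂ) (cm a f) s) * cm a g s)) := by
        rw [h2, ← mul_assoc, ← mul_assoc, mul_comm ((gam N x a : ℝ) : ℂ)]
        congr 1
        refine sm_congr n _ _ fun s _ => ?_
        simp only [cm_apply]
        rw [show ((a : ℕ) : ℤ) + (isum s - 1) = (a : ℕ) + isum s - 1 by ring]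
      rw [h3, ← sm_mul]
      split_ifs with h
      · rw [← sm_add]
        refine sm_congr n _ _ fun s hs => ?_
        rw [eo_cons, dif_pos h, GG_cons]
        have h4 : wtl s = (n : ℤ) * ((N : ℤ) - 1) - 2 * isum s := by rw [wtl, hs]
        rw [map_add, map_mul, map_mul, conj_br_real, conj_zpow_real, h4]
        have h5 := gam_step hx h
        have h6 : ((gam N x a : ℝ) : ℂ) * br (x : ℂ) ((N : ℤ) - 1 - (a : ℕ)) =
            ((gam N x (a + 1) * rb x ((a : ℕ) + 1 : ℤ) : ℝ) : ℂ) := by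
          rw [br_real, ← Complex.ofReal_mul, h5]
        have h7 : (x : ℂ) ^ (-(2 * ((a : ℕ) : ℤ) * isum s)) *
            (x : ℂ) ^ ((n : ℤ) * ((N : ℤ) - 1) - 2 * isum s) =
            (x : ℂ) ^ ((n : ℤ) * ((N : ℤ) - 1)) * (x : ℂ) ^ (-(2 * (((a : ℕ) : ℤ) + 1) * isum s)) := by
          rw [← zpow_add₀ hx0, ← zpow_add₀ hx0]
          congr 1; ring
        have h8 : isum (a :: s) = (a : ℕ) + isum s := isum_cons a s
        have h9 : (((1 / (rbf x a * rbf x (N - 1 - a)) * x ^ (-(2 * (a : ℕ) * isum s)) * GG x s :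
            ℝ)) : ℂ) = ((gam N x a : ℝ) : ℂ) * (x : ℂ) ^ (-(2 * ((a : ℕ) : ℤ) * isum s)) *
              ((GG x s : ℝ) : ℂ) := by
          unfold gam
          push_cast
          rfl
        rw [h8, h9]
        simp only [cm_apply]
        push_cast at h6 ⊢
        rw [show ((a : ℕ) : ℤ) + 1 + isum s - 1 = (a : ℕ) + isum s by ring]
        linear_combination (φ ((a : ℕ) + isum s) * (x : ℂ) ^ (-(2 * ((a : ℕ) : ℤ) * isum s)) *
          (x : ℂ) ^ ((n : ℤ) * ((N : ℤ) - 1) - 2 * isum s) * ((GG x s : ℝ) : ℂ) *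
          (starRingEnd ℂ (f (⟨a + 1, h⟩ :: s)) * g (a :: s))) * h6 +
          (((gam N x (a + 1) : ℝ) : ℂ) * ((rb x ((a : ℕ) + 1 : ℤ) : ℝ) : ℂ) *
          φ ((a : ℕ) + isum s) * ((GG x s : ℝ) : ℂ) *
          (starRingEnd ℂ (f (⟨a + 1, h⟩ :: s)) * g (a :: s))) * h7
      · rw [zero_add]
        refine sm_congr n _ _ fun s hs => ?_
        rw [eo_cons, dif_neg h, GG_cons, zero_add]
        have h9 : (((1 / (rbf x a * rbf x (N - 1 - a)) * x ^ (-(2 * (a : ℕ) * isum s)) * GG x s :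
            ℝ)) : ℂ) = ((gam N x a : ℝ) : ℂ) * (x : ℂ) ^ (-(2 * ((a : ℕ) : ℤ) * isum s)) *
              ((GG x s : ℝ) : ℂ) := by
          unfold gam
          push_cast
          rfl
        rw [h9, isum_cons]
        simp only [cm_apply]
        ring
    have R : ∀ a : Fin N, (x : ℂ) ^ ((((n + 1 : ℕ) : ℤ) - 1) * ((N : ℤ) - 1)) *
        sm n (fun s => φ (isum (a :: s) - 1) * ((GG x (a :: s) : ℝ) : ℂ) *
        (starRingEnd ℂ (f (a :: s)) * fo (x : ℂ) g (a :: s))) =
        (if h : 0 < (a : ℕ) then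
          (fun (a b : Fin N) => sm n (fun s => (x : ℂ) ^ ((n : ℤ) * ((N : ℤ) - 1)) *
            (((gam N x b * rb x (b : ℕ) : ℝ) : ℂ) * φ ((b : ℕ) + isum s - 1) *
            (x : ℂ) ^ (-(2 * (b : ℕ) * isum s)) * ((GG x s : ℝ) : ℂ) *
            (starRingEnd ℂ (f (b :: s)) * g (a :: s)))))
              ⟨a - 1, lt_of_le_of_lt (Nat.sub_le _ _) a.2⟩ a else 0) +
        (x : ℂ) ^ (((n : ℤ) - 1) * ((N : ℤ) - 1)) * (((gam N x a : ℝ) : ℂ) *
          sm n (fun s => φ ((a : ℕ) + isum s - 1) * (x : ℂ) ^ (-(2 * (a : ℕ) * (isum s - 1))) *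
            ((GG x s : ℝ) : ℂ) * (starRingEnd ℂ (f (a :: s)) * fo (x : ℂ) (cm a g) s))) := by
      intro a
      have e1 : (((n + 1 : ℕ) : ℤ) - 1) = n := by push_cast; ring
      rw [e1, ← sm_mul, ← sm_mul, ← sm_mul]
      have h9 : ∀ s : List (Fin N), (((1 / (rbf x a * rbf x (N - 1 - a)) *
          x ^ (-(2 * (a : ℕ) * isum s)) * GG x s : ℝ)) : ℂ) =
            ((gam N x a : ℝ) : ℂ) * (x : ℂ) ^ (-(2 * ((a : ℕ) : ℤ) * isum s)) *
              ((GG x s : ℝ) : ℂ) := by
        intro s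
        unfold gam
        push_cast
        rfl
      have h7 : ∀ s : List (Fin N), (x : ℂ) ^ ((n : ℤ) * ((N : ℤ) - 1)) *
          (x : ℂ) ^ (-(2 * ((a : ℕ) : ℤ) * isum s)) * (x : ℂ) ^ (-((N : ℤ) - 1 - 2 * (a : ℕ))) =
          (x : ℂ) ^ (((n : ℤ) - 1) * ((N : ℤ) - 1)) *
            (x : ℂ) ^ (-(2 * ((a : ℕ) : ℤ) * (isum s - 1))) := by
        intro s
        rw [← zpow_add₀ hx0, ← zpow_add₀ hx0, ← zpow_add₀ hx0]
        congr 1; ring
      split_ifs with h
      · rw [← sm_add]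
        refine sm_congr n _ _ fun s hs => ?_
        rw [fo_cons, dif_pos h, GG_cons, h9, isum_cons, br_real]
        push_cast
        linear_combination (φ ((a : ℕ) + isum s - 1) * ((gam N x a : ℝ) : ℂ) *
          ((GG x s : ℝ) : ℂ) * (starRingEnd ℂ (f (a :: s)) * fo (x : ℂ) (cm a g) s)) * h7 s
      · rw [zero_add]
        refine sm_congr n _ _ fun s hs => ?_
        rw [fo_cons, dif_neg h, GG_cons, h9, isum_cons, zero_add]
        linear_combination (φ ((a : ℕ) + isum s - 1) * ((gam N x a : ℝ) : ℂ) *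
          ((GG x s : ℝ) : ℂ) * (starRingEnd ℂ (f (a :: s)) * fo (x : ℂ) (cm a g) s)) * h7 s
    rw [sum_congr rfl fun a _ => L a, sum_congr rfl fun a _ => R a, sum_add_distrib,
      sum_add_distrib]
    congr 1
    exact sum_shift (fun (a b : Fin N) => sm n (fun s => (x : ℂ) ^ ((n : ℤ) * ((N : ℤ) - 1)) *
            (((gam N x b * rb x (b : ℕ) : ℝ) : ℂ) * φ ((b : ℕ) + isum s - 1) *
            (x : ℂ) ^ (-(2 * (b : ℕ) * isum s)) * ((GG x s : ℝ) : ℂ) *
            (starRingEnd ℂ (f (b :: s)) * g (a :: s)))))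

theorem t_adj : S_ADJ := by
  intro N x hx n f g
  have h := adj_gen hx n (fun _ => 1) f g
  simp only [one_mul] at h
  exact h

lemma ip_self_term (x : ℝ) (f : St N) (s : List (Fin N)) :
    ((GG x s : ℝ) : ℂ) * (starRingEnd ℂ (f s) * f s) = ((GG x s * Complex.normSq (f s) : ℝ) : ℂ) := by
  rw [mul_comm (starRingEnd ℂ (f s)), Complex.mul_conj]
  push_cast
  rfl

lemma ip_self_re (x : ℝ) (n : ℕ) (f : St N) :
    (ip x n f f).re = sm n (fun s => GG x s * Complex.normSq (f s)) := by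
  unfold ip
  rw [sm_re]
  refine sm_congr n _ _ fun s _ => ?_
  rw [ip_self_term, Complex.ofReal_re]

lemma ip_self_im (x : ℝ) (n : ℕ) (f : St N) : (ip x n f f).im = 0 := by
  unfold ip
  rw [sm_im]
  rw [sm_congr n _ (fun _ => (0 : ℝ)) fun s _ => by rw [ip_self_term, Complex.ofReal_im]]
  exact sm_zero n

theorem t_pos : S_POS := by
  intro N x hx n
  have hnn : ∀ f : St N, ∀ s : List (Fin N), s.length = n → 0 ≤ GG x s * Complex.normSq (f s) :=
    fun f s _ => mul_nonneg (GG_pos hx s).le (Complex.normSq_nonneg _)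
  refine ⟨fun f => ?_, fun f hf s hs => ?_, fun φ hφ f g => ?_⟩
  · rw [ip_self_re]
    exact sm_nonneg n _ (hnn f)
  · have h1 : (ip x n f f).re = 0 := by rw [hf]; rfl
    rw [ip_self_re] at h1
    have h2 := sm_eq_zero n _ (hnn f) h1 s hs
    have h3 := (GG_pos hx s).ne'
    rcases mul_eq_zero.1 h2 with h | h
    · exact absurd h h3
    · exact Complex.normSq_eq_zero.1 h
  · unfold ip
    refine sm_congr n _ _ fun s _ => ?_
    simp only [mu_apply, map_mul, hφ]
    ring

/-- `F` acts on the states of a given length -/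
lemma fo_local (v : ℂ) (s : List (Fin N)) : ∀ (f : St N), (∀ t, t.length = s.length → f t = 0) →
    fo v f s = 0 := by
  induction s with
  | nil => intro f _; exact fo_nil v f
  | cons a s ih =>
    intro f hf
    rw [fo_cons, ih (cm a f) (fun t ht => hf _ (by simp [ht]))]
    split_ifs with h
    · rw [hf _ (by simp)]; ring
    · ring

theorem t_neg : S_NEG := by
  intro hadj hpos N x hx n f hf s₀ hs₀ hw
  classical
  have hx0 : (x : ℂ) ≠ 0 := by
    have : x ≠ 0 := by linarith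
    exact_mod_cast this
  set ψ : ℕ → ℤ → ℂ := fun _ y => if y = isum s₀ then 1 else 0 with hψ
  set f' : St N := mu ψ f with hf'
  have hE : ∀ t : List (Fin N), t.length = n → eo (x : ℂ) f' t = 0 := by
    intro t ht
    rw [hf', eo_mu, hf t ht, mul_zero]
  have hsupp : ∀ t : List (Fin N), t.length = n → wtl t ≠ wtl s₀ → f' t = 0 := by
    intro t ht hne
    rw [hf', mu_apply, hψ]
    simp only
    rw [if_neg, zero_mul]
    intro h
    apply hne
    rw [wtl, wtl, ht, hs₀, h]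
  have hEF : ∀ t : List (Fin N), t.length = n → eo (x : ℂ) (fo (x : ℂ) f') t =
      ((rb x 1 * rb x (wtl s₀) : ℝ) : ℂ) * f' t := by
    intro t ht
    have h1 := ef_comm hx0 t f'
    have h2 : fo (x : ℂ) (eo (x : ℂ) f') t = 0 :=
      fo_local _ t _ fun u hu => hE u (hu.trans ht)
    rw [h2, sub_zero] at h1
    rw [h1]
    by_cases h3 : wtl t = wtl s₀
    · rw [h3, br_real, br_real]
      push_cast
      ring
    · rw [hsupp t ht h3]; ring
  have hmain := hadj N x hx n (fo (x : ℂ) f') f'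
  have hl : ip x n (eo (x : ℂ) (fo (x : ℂ) f')) f' =
      ((rb x 1 * rb x (wtl s₀) : ℝ) : ℂ) * ip x n f' f' := by
    unfold ip
    rw [← sm_mul]
    refine sm_congr n _ _ fun t ht => ?_
    rw [hEF t ht, map_mul, Complex.conj_ofReal]
    ring
  rw [hl] at hmain
  have hre := congrArg Complex.re hmain
  have e1 : ((x : ℂ) ^ (((n : ℤ) - 1) * ((N : ℤ) - 1))) =
      ((x ^ (((n : ℤ) - 1) * ((N : ℤ) - 1)) : ℝ) : ℂ) := by push_cast; rfl
  rw [e1, Complex.re_ofReal_mul, Complex.re_ofReal_mul] at hre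
  have p1 : 0 < x ^ (((n : ℤ) - 1) * ((N : ℤ) - 1)) := zpow_pos (by linarith) _
  have p2 := (hpos N x hx n).1 (fo (x : ℂ) f')
  have p3 := (hpos N x hx n).1 f'
  have p4 : 0 < rb x 1 := rb_pos hx one_pos
  have p5 : rb x (wtl s₀) < 0 := by
    have h := rb_pos hx (k := -wtl s₀) (by omega)
    unfold rb at h ⊢
    rw [neg_neg] at h
    linarith
  have p6 : rb x 1 * rb x (wtl s₀) < 0 := mul_neg_of_pos_of_neg p4 p5
  have p7 : 0 ≤ x ^ (((n : ℤ) - 1) * ((N : ℤ) - 1)) * (ip x n (fo (x : ℂ) f') (fo (x : ℂ) f')).re :=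
    mul_nonneg p1.le p2
  have p8 : (ip x n f' f').re = 0 := by
    by_contra hne
    have : 0 < (ip x n f' f').re := lt_of_le_of_ne p3 (Ne.symm hne)
    have := mul_neg_of_neg_of_pos p6 this
    linarith
  have p9 : ip x n f' f' = 0 := Complex.ext p8 (ip_self_im x n f')
  have p10 := (hpos N x hx n).2.1 f' p9 s₀ hs₀
  rw [hf', mu_apply, hψ] at p10
  simpa using p10

end Pool.Agent.K7.H33.FT
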