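import Pool.Agent.K7.H87.EX.Stm

/-! Project EX, job HOL: Hoelder's map on the convex hull of a cyclic subgroup. -/

set_option autoImplicit false

namespace Pool.Agent.K7.H33.EXHOL

open Pool.Agent.K7.H87.EX

section
variable {N : Type} [Group N] [LinearOrder N] [MulLeftMono N] [MulRightMono N]

lemma zmono {c : N} (hc : 1 < c) : StrictMono fun n : ℤ ↦ c ^ n := by
  refine strictMono_int_of_lt_succ fun n ↦ ?_
  rw [zpow_add_one]
  exact lt_mul_of_one_lt_right' (c ^ n) hc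

lemma zle {c : N} (hc : 1 < c) {x y : ℤ} : c ^ x ≤ c ^ y ↔ x ≤ y := (zmono hc).le_iff_le

lemma cmp {c h : N} (hc : 1 < c) {a b : ℤ} {n m : ℕ} (h1 : c ^ a ≤ h ^ n) (h2 : h ^ m ≤ c ^ b) :
    a * m ≤ b * n := by
  have h3 : c ^ (a * m) ≤ h ^ (n * m) := by
    rw [zpow_mul, pow_mul, zpow_natCast]
    exact pow_le_pow_left' h1 m
  have h4 : h ^ (n * m) ≤ c ^ (b * n) := by
    rw [mul_comm n m, zpow_mul, pow_mul, zpow_natCast]
    exact pow_le_pow_left' h2 n
  exact (zle hc).1 (h3.trans h4)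

def S (c h : N) : Set ℝ := {r | ∃ (a : ℤ) (n : ℕ), 0 < n ∧ c ^ a ≤ h ^ n ∧ r = a / n}

noncomputable def phi (c h : N) : ℝ := sSup (S c h)

lemma F {c h : N} (hc : 1 < c) {a b : ℤ} {n : ℕ} (hn : 0 < n) (h1 : c ^ a ≤ h ^ n)
    (h2 : h ^ n ≤ c ^ b) : (a : ℝ) ≤ n * phi c h ∧ n * phi c h ≤ b := by
  have hn' : (0 : ℝ) < n := by exact_mod_cast hn
  have hb : ∀ r ∈ S c h, r ≤ b / n := by
    rintro r ⟨a', n', hn1, h3, rfl⟩
    have := cmp hc h3 h2
    have hn1' : (0 : ℝ) < n' := by exact_mod_cast hn1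
    rw [div_le_div_iff₀ hn1' hn']
    exact_mod_cast this
  constructor
  · have : (a : ℝ) / n ≤ phi c h := le_csSup ⟨_, hb⟩ ⟨a, n, hn, h1, rfl⟩
    rw [div_le_iff₀ hn'] at this
    linarith
  · have : phi c h ≤ b / n := csSup_le ⟨_, ⟨a, n, hn, h1, rfl⟩⟩ hb
    rw [le_div_iff₀ hn'] at this
    linarith

lemma ex {c h : N} (hc : 1 < c) (hb : Bd c h) (n : ℕ) :
    ∃ a : ℤ, c ^ a ≤ h ^ n ∧ h ^ n ≤ c ^ (a + 1) := by
  obtain ⟨k, h1, h2⟩ := hb
  have h3 : c ^ (-(k : ℤ) * n) ≤ h ^ n := by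
    rw [zpow_mul, zpow_natCast, zpow_neg, zpow_natCast]
    exact pow_le_pow_left' h1 n
  have h4 : h ^ n ≤ c ^ ((k : ℤ) * n) := by
    rw [zpow_mul, zpow_natCast, zpow_natCast]
    exact pow_le_pow_left' h2 n
  obtain ⟨a, ha, ha'⟩ := Int.exists_greatest_of_bdd (P := fun a => c ^ a ≤ h ^ n)
    ⟨(k : ℤ) * n, fun z hz => (zle hc).1 (hz.trans h4)⟩ ⟨_, h3⟩
  refine ⟨a, ha, ?_⟩
  by_contra h5
  have := ha' (a + 1) (le_of_lt (not_le.1 h5))
  omega

lemma arch {x : ℝ} {C : ℝ} (h : ∀ n : ℕ, 0 < n → n * x ≤ C) : x ≤ 0 := by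
  by_contra hx
  rw [not_le] at hx
  obtain ⟨n, hn⟩ := exists_nat_gt (C / x)
  have := h (n + 1) (by omega)
  rw [div_lt_iff₀ hx] at hn
  push_cast at this
  nlinarith

lemma mix {g h : N} (hgh : g * h ≤ h * g) (n : ℕ) :
    g ^ n * h ^ n ≤ (g * h) ^ n ∧ (g * h) ^ n ≤ h ^ n * g ^ n := by
  have s1 : ∀ n : ℕ, g * h ^ n ≤ h ^ n * g := by
    intro n
    induction n with
    | zero => simp
    | succ n ih =>
      calc g * h ^ (n + 1) = (g * h ^ n) * h := by rw [pow_succ, mul_assoc]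
        _ ≤ (h ^ n * g) * h := mul_le_mul' ih le_rfl
        _ = h ^ n * (g * h) := by group
        _ ≤ h ^ n * (h * g) := mul_le_mul' le_rfl hgh
        _ = h ^ (n + 1) * g := by rw [pow_succ]; group
  induction n with
  | zero => simp
  | succ n ih =>
    constructor
    · calc g ^ (n + 1) * h ^ (n + 1) = g ^ n * (g * h ^ n) * h := by
            rw [pow_succ, pow_succ]; group
        _ ≤ g ^ n * (h ^ n * g) * h := mul_le_mul' (mul_le_mul' le_rfl (s1 n)) le_rfl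
        _ = g ^ n * h ^ n * (g * h) := by group
        _ ≤ (g * h) ^ n * (g * h) := mul_le_mul' ih.1 le_rfl
        _ = (g * h) ^ (n + 1) := (pow_succ _ _).symm
    · calc (g * h) ^ (n + 1) = (g * h) * (g * h) ^ n := pow_succ' _ _
        _ ≤ (h * g) * (h ^ n * g ^ n) := mul_le_mul' hgh ih.2
        _ = h * (g * h ^ n) * g ^ n := by group
        _ ≤ h * (h ^ n * g) * g ^ n := mul_le_mul' (mul_le_mul' le_rfl (s1 n)) le_rfl
        _ = h ^ (n + 1) * g ^ (n + 1) := by rw [pow_succ', pow_succ']; group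

lemma mix' {g h : N} (hgh : h * g ≤ g * h) (n : ℕ) :
    h ^ n * g ^ n ≤ (g * h) ^ n ∧ (g * h) ^ n ≤ g ^ n * h ^ n := by
  have s1 : ∀ n : ℕ, h ^ n * g ≤ g * h ^ n := by
    intro n
    induction n with
    | zero => simp
    | succ n ih =>
      calc h ^ (n + 1) * g = h ^ n * (h * g) := by rw [pow_succ]; group
        _ ≤ h ^ n * (g * h) := mul_le_mul' le_rfl hgh
        _ = (h ^ n * g) * h := by group
        _ ≤ (g * h ^ n) * h := mul_le_mul' ih le_rfl
        _ = g * h ^ (n + 1) := by rw [pow_succ, mul_assoc]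
  induction n with
  | zero => simp
  | succ n ih =>
    constructor
    · calc h ^ (n + 1) * g ^ (n + 1) = h * (h ^ n * g) * g ^ n := by
            rw [pow_succ', pow_succ']; group
        _ ≤ h * (g * h ^ n) * g ^ n := mul_le_mul' (mul_le_mul' le_rfl (s1 n)) le_rfl
        _ = (h * g) * (h ^ n * g ^ n) := by group
        _ ≤ (g * h) * (g * h) ^ n := mul_le_mul' hgh ih.1
        _ = (g * h) ^ (n + 1) := (pow_succ' _ _).symm
    · calc (g * h) ^ (n + 1) = (g * h) ^ n * (g * h) := pow_succ _ _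
        _ ≤ g ^ n * h ^ n * (g * h) := mul_le_mul' ih.2 le_rfl
        _ = g ^ n * (h ^ n * g) * h := by group
        _ ≤ g ^ n * (g * h ^ n) * h := mul_le_mul' (mul_le_mul' le_rfl (s1 n)) le_rfl
        _ = g ^ (n + 1) * h ^ (n + 1) := by rw [pow_succ, pow_succ]; group

lemma add {c g h : N} (hc : 1 < c) (hg : Bd c g) (hh : Bd c h) :
    phi c (g * h) = phi c g + phi c h := by
  have key : ∀ n : ℕ, 0 < n → n * (phi c (g * h) - (phi c g + phi c h)) ≤ 2 ∧
      n * ((phi c g + phi c h) - phi c (g * h)) ≤ 2 := by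
    intro n hn
    obtain ⟨a, ha1, ha2⟩ := ex hc hg n
    obtain ⟨b, hb1, hb2⟩ := ex hc hh n
    have h1 : c ^ (a + b) ≤ (g * h) ^ n := by
      rcases le_total (g * h) (h * g) with hle | hle
      · calc c ^ (a + b) = c ^ a * c ^ b := zpow_add _ _ _
          _ ≤ g ^ n * h ^ n := mul_le_mul' ha1 hb1
          _ ≤ _ := (mix hle n).1
      · calc c ^ (a + b) = c ^ b * c ^ a := by rw [add_comm, zpow_add]
          _ ≤ h ^ n * g ^ n := mul_le_mul' hb1 ha1
          _ ≤ _ := (mix' hle n).1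
    have h2 : (g * h) ^ n ≤ c ^ ((a + 1) + (b + 1)) := by
      rcases le_total (g * h) (h * g) with hle | hle
      · calc (g * h) ^ n ≤ h ^ n * g ^ n := (mix hle n).2
          _ ≤ c ^ (b + 1) * c ^ (a + 1) := mul_le_mul' hb2 ha2
          _ = _ := by rw [← zpow_add, add_comm]
      · calc (g * h) ^ n ≤ g ^ n * h ^ n := (mix' hle n).2
          _ ≤ c ^ (a + 1) * c ^ (b + 1) := mul_le_mul' ha2 hb2
          _ = _ := (zpow_add _ _ _).symm
    have f1 := F hc hn ha1 ha2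
    have f2 := F hc hn hb1 hb2
    have f3 := F hc hn h1 h2
    push_cast at f1 f2 f3
    constructor <;> linarith [f1.1, f1.2, f2.1, f2.2, f3.1, f3.2]
  have k1 := arch (fun n hn => (key n hn).1)
  have k2 := arch (fun n hn => (key n hn).2)
  linarith

lemma mono {c g h : N} (hc : 1 < c) (hg : Bd c g) (hh : Bd c h) (hle : g ≤ h) :
    phi c g ≤ phi c h := by
  have key : ∀ n : ℕ, 0 < n → n * (phi c g - phi c h) ≤ 1 := by
    intro n hn
    obtain ⟨a, ha1, ha2⟩ := ex hc hg n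
    obtain ⟨b, hb1, hb2⟩ := ex hc hh n
    have f1 := F hc hn ha1 ha2
    have f2 := F hc hn (ha1.trans (pow_le_pow_left' hle n)) hb2
    push_cast at f1 f2
    linarith [f1.1, f1.2, f2.1, f2.2]
  have k1 := arch key
  linarith

end

theorem t : StHol := by
  intro N _ _ hl hr c hc
  have i1 : MulLeftMono N := ⟨fun m n₁ n₂ h => hl n₁ n₂ m h⟩
  have i2 : MulRightMono N := ⟨fun m n₁ n₂ h => hr n₁ n₂ m h⟩
  refine ⟨phi c, ?_, fun a b ha hb => add hc ha hb, fun a b ha hb h => mono hc ha hb h⟩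
  have h1 : c ^ (1 : ℤ) ≤ c ^ (1 : ℕ) := by rw [zpow_one, pow_one]
  have h2 : c ^ (1 : ℕ) ≤ c ^ (1 : ℤ) := by rw [zpow_one, pow_one]
  have f := F hc one_pos h1 h2
  push_cast at f
  linarith [f.1, f.2]

end Pool.Agent.K7.H33.EXHOL
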