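import Pool.Agent.K7.H87.EX.Stm

/-! Project EX, job NILB: `G` is nilpotent, from NILA, by induction on the class of `H`. -/

set_option autoImplicit false

namespace Pool.Agent.K7.H33.EXNILB

open Pool.Agent.K7.H87.EX
open scoped commutatorElement

lemma per {G : Type} [Group G] {H : Subgroup G} [H.Normal] (h : ∀ x : G ⧸ H, IsOfFinOrder x)
    (g : G) : ∃ n : ℕ, 0 < n ∧ g ^ n ∈ H := by
  obtain ⟨n, hn, h1⟩ := isOfFinOrder_iff_pow_eq_one.1 (h (QuotientGroup.mk' H g))
  rw [← map_pow] at h1
  exact ⟨n, hn, (QuotientGroup.eq_one_iff _).1 h1⟩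

theorem main (hA : StNilA) : ∀ c : ℕ, ∀ (G : Type) [Group G] (H : Subgroup G) [H.Normal],
    (∀ g : G, g ≠ 1 → ¬ IsOfFinOrder g) → (∀ x : G ⧸ H, IsOfFinOrder x) →
    (∀ x y : G ⧸ H, ∃ n : ℕ, (fun z : G ⧸ H => z⁻¹ * y⁻¹ * z * y)^[n] x = 1) → PropR H →
    H.lowerCentralSeries c = ⊥ → Group.IsNilpotent G := by
  intro c
  induction c with
  | zero =>
    intro G _ H _ htf hper _ _ hc
    rw [Subgroup.lowerCentralSeries_zero] at hc
    have key : ∀ g : G, g = 1 := by
      intro g
      by_contra hg
      obtain ⟨n, hn, h1⟩ := per hper g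
      rw [hc, Subgroup.mem_bot] at h1
      exact htf g hg (isOfFinOrder_iff_pow_eq_one.2 ⟨n, hn, h1⟩)
    have : Subsingleton G := ⟨fun a b => by rw [key a, key b]⟩
    infer_instance
  | succ c ih =>
    intro G _ H _ htf hper heng hR hc
    have hZ : ∀ g : G, ∀ n : ℕ, 0 < n → g ^ n ∈ Subgroup.center G → g ∈ Subgroup.center G := by
      intro g n hn hg
      obtain ⟨m, hm, h1⟩ := per hper (g ^ n)
      rw [← pow_mul] at h1
      refine hA G H htf hper heng hR g (n * m) (Nat.mul_pos hn hm) h1 ?_
      intro h hh
      rw [pow_mul]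
      exact Subgroup.mem_center_iff.1 (Subgroup.pow_mem _ hg m) h
    have hlc : H.lowerCentralSeries c ≤ Subgroup.center G := by
      intro w hw
      have hwH : w ∈ H := H.lowerCentralSeries_antitone (Nat.zero_le c) hw
      refine hA G H htf hper heng hR w 1 one_pos (by simpa using hwH) ?_
      intro h hh
      rw [pow_one]
      have h1 : ⁅w, h⁆ ∈ H.lowerCentralSeries (c + 1) := Subgroup.commutator_mem_commutator hw hh
      rw [hc, Subgroup.mem_bot, commutatorElement_eq_one_iff_mul_comm] at h1
      exact h1.symm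
    let π := QuotientGroup.mk' (Subgroup.center G)
    have hπ : Function.Surjective π := QuotientGroup.mk'_surjective _
    have hN : (H.map π).Normal := Subgroup.Normal.map inferInstance π hπ
    have hnil : Group.IsNilpotent (G ⧸ Subgroup.center G) := by
      refine ih (G ⧸ Subgroup.center G) (H.map π) ?_ ?_ ?_ ?_ ?_
      · intro x hx hfo
        obtain ⟨g, rfl⟩ := hπ x
        obtain ⟨n, hn, h1⟩ := isOfFinOrder_iff_pow_eq_one.1 hfo
        rw [← map_pow] at h1
        apply hx
        exact (QuotientGroup.eq_one_iff _).2 (hZ g n hn ((QuotientGroup.eq_one_iff _).1 h1))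
      · intro x
        obtain ⟨y, rfl⟩ := QuotientGroup.mk'_surjective _ x
        obtain ⟨g, rfl⟩ := hπ y
        obtain ⟨n, hn, h1⟩ := per hper g
        rw [isOfFinOrder_iff_pow_eq_one]
        refine ⟨n, hn, ?_⟩
        rw [← map_pow, ← map_pow]
        exact (QuotientGroup.eq_one_iff _).2 (Subgroup.mem_map_of_mem _ h1)
      · let f : G ⧸ H →* (G ⧸ Subgroup.center G) ⧸ (H.map π) :=
          QuotientGroup.map H (H.map π) π (Subgroup.le_comap_map _ _)
        have hf : Function.Surjective f := by
          intro x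
          obtain ⟨y, rfl⟩ := QuotientGroup.mk'_surjective _ x
          obtain ⟨g, rfl⟩ := hπ y
          exact ⟨QuotientGroup.mk' H g, rfl⟩
        intro x y
        obtain ⟨x, rfl⟩ := hf x
        obtain ⟨y, rfl⟩ := hf y
        obtain ⟨n, hn⟩ := heng x y
        refine ⟨n, ?_⟩
        have hs : Function.Semiconj f (fun z : G ⧸ H => z⁻¹ * y⁻¹ * z * y)
            (fun z => z⁻¹ * (f y)⁻¹ * z * f y) := by
          intro z
          simp only [map_mul, map_inv]
        rw [← (hs.iterate_right n) x, hn, map_one]
      · intro h1 hh1 g1 n hn hcomm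
        obtain ⟨h, hh, rfl⟩ := Subgroup.mem_map.1 hh1
        obtain ⟨g, rfl⟩ := hπ g1
        obtain ⟨m, hm, hgH⟩ := per hper (g ^ n)
        rw [← pow_mul] at hgH
        obtain ⟨b, hb⟩ : ∃ b, b = g ^ (n * m) := ⟨_, rfl⟩
        have hcomm2 : π h * π b = π b * π h := by
          have h2 : Commute (π h) ((π g) ^ n) := hcomm
          have h3 := h2.pow_right m
          rw [hb, map_pow, pow_mul]
          exact h3
        obtain ⟨z, hz⟩ : ∃ z, z = h⁻¹ * (b * h * b⁻¹) := ⟨_, rfl⟩
        have hzc : z ∈ Subgroup.center G := by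
          have h0 : π z = 1 := by
            rw [hz]
            simp only [map_mul, map_inv]
            rw [← hcomm2]
            group
          exact (QuotientGroup.eq_one_iff _).1 h0
        have hzm := Subgroup.mem_center_iff.1 hzc
        have hbh : b * h * b⁻¹ = h * z := by rw [hz]; group
        obtain ⟨k, hk⟩ : ∃ k, k = h⁻¹ * (g * h * g⁻¹) := ⟨_, rfl⟩
        have hkH : k ∈ H := by
          rw [hk]
          exact H.mul_mem (H.inv_mem hh) (Subgroup.Normal.conj_mem inferInstance h hh g)
        have hbg : b * g = g * b := by rw [hb]; exact (Commute.self_pow g (n * m)).symm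
        have hkb : k * b = b * k := by
          have e1 : b * k * b⁻¹ = (b * h * b⁻¹)⁻¹ * (g * (b * h * b⁻¹) * g⁻¹) := by
            have t1 : b⁻¹ * g * b = g := by rw [mul_assoc, ← hbg]; group
            have t2 : b⁻¹ * g⁻¹ = g⁻¹ * b⁻¹ := by
              rw [← mul_inv_rev, ← mul_inv_rev, hbg]
            calc b * k * b⁻¹ = b * h⁻¹ * g * h * (g⁻¹ * b⁻¹) := by rw [hk]; group
              _ = b * h⁻¹ * (b⁻¹ * g * b) * h * (b⁻¹ * g⁻¹) := by rw [t1, t2]
              _ = (b * h * b⁻¹)⁻¹ * (g * (b * h * b⁻¹) * g⁻¹) := by group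
          have e2 : (h * z)⁻¹ * (g * (h * z) * g⁻¹) = k := by
            have e3 : g * (h * z) * g⁻¹ = g * h * g⁻¹ * z := by
              calc g * (h * z) * g⁻¹ = g * h * (z * g⁻¹) := by group
                _ = g * h * (g⁻¹ * z) := by rw [hzm g⁻¹]
                _ = g * h * g⁻¹ * z := by group
            calc (h * z)⁻¹ * (g * (h * z) * g⁻¹) = z⁻¹ * (h⁻¹ * (g * h * g⁻¹) * z) := by
                  rw [e3]; group
              _ = z⁻¹ * (k * z) := by rw [hk]
              _ = k := by rw [hzm k]; group
          have e4 : b * k * b⁻¹ = k := by rw [e1, hbh, e2]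
          exact (mul_inv_eq_iff_eq_mul.1 e4).symm
        have hkg : k * g = g * k := hR k hkH g (n * m) (Nat.mul_pos hn hm) (by rw [← hb]; exact hkb)
        have e5 : g * h = h * k * g := by rw [hk]; group
        have hj : ∀ j : ℕ, g ^ j * h = h * k ^ j * g ^ j := by
          intro j
          induction j with
          | zero => simp
          | succ j ihj =>
            have e6 : g * k ^ j = k ^ j * g := by
              have : Commute g k := hkg.symm
              exact this.pow_right j
            calc g ^ (j + 1) * h = g * (g ^ j * h) := by rw [pow_succ', mul_assoc]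
              _ = (g * h) * k ^ j * g ^ j := by rw [ihj]; simp only [mul_assoc]
              _ = h * k * (g * k ^ j) * g ^ j := by rw [e5]; simp only [mul_assoc]
              _ = h * (k * k ^ j) * (g * g ^ j) := by rw [e6]; simp only [mul_assoc]
              _ = h * k ^ (j + 1) * g ^ (j + 1) := by rw [← pow_succ', ← pow_succ']
        have hkz : k ^ (n * m) = z := by
          have e7 := hj (n * m)
          rw [← hb] at e7
          rw [hz, e7]
          group
        have hkc : k ∈ Subgroup.center G :=
          hZ k (n * m) (Nat.mul_pos hn hm) (by rw [hkz]; exact hzc)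
        have e8 : π k = 1 := (QuotientGroup.eq_one_iff _).2 hkc
        have e10 : π g * π h = π h * π g := by
          rw [← map_mul, e5, map_mul, map_mul, e8, mul_one]
        exact e10.symm
      · rw [← Subgroup.map_lowerCentralSeries, Subgroup.map_eq_bot_iff, QuotientGroup.ker_mk']
        exact hlc
    exact Group.of_quotient_center_nilpotent hnil

theorem t (h : StNilA) : StNilB := by
  intro G _ H _ htf hper heng hR hnil
  obtain ⟨c, hc⟩ := (Subgroup.isNilpotent_iff_lowerCentralSeries H).1 hnil
  exact main h c G H htf hper heng hR hc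

end Pool.Agent.K7.H33.EXNILB
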