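import Pool.Agent.K7.H87.EX.Stm

/-! Project EX, job SCHN: nilpotent groups satisfy `Sch`. -/

set_option autoImplicit false

namespace Pool.Agent.K7.H33.EXSCHN

open Pool.Agent.K7.H87.EX
open scoped commutatorElement

lemma step {E : Type} [Group E] (hE : ∀ e : E, ∃ n : ℕ, 0 < n ∧ e ^ n ∈ Subgroup.center E)
    (i : ℕ) (h : ∀ w ∈ (⊤ : Subgroup E).lowerCentralSeries (i + 2), IsOfFinOrder w) :
    ∀ w ∈ (⊤ : Subgroup E).lowerCentralSeries (i + 1), IsOfFinOrder w := by
  set L := (⊤ : Subgroup E).lowerCentralSeries (i + 2) with hL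
  have hc : ∀ w ∈ (⊤ : Subgroup E).lowerCentralSeries (i + 1), ∀ g : E,
      Commute (QuotientGroup.mk' L w) (QuotientGroup.mk' L g) := by
    intro w hw g
    have h1 : ⁅w, g⁆ ∈ L := by
      rw [hL]
      exact Subgroup.commutator_mem_commutator hw (Subgroup.mem_top g)
    have h2 : QuotientGroup.mk' L ⁅w, g⁆ = 1 := (QuotientGroup.eq_one_iff _).2 h1
    rw [map_commutatorElement] at h2
    exact commutatorElement_eq_one_iff_commute.1 h2
  have key : ∀ w ∈ (⊤ : Subgroup E).lowerCentralSeries (i + 1), IsOfFinOrder (QuotientGroup.mk' L w) := by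
    intro w hw
    have hw' := hw
    change w ∈ ⁅(⊤ : Subgroup E).lowerCentralSeries i, (⊤ : Subgroup E)⁆ at hw'
    rw [Subgroup.commutator_def] at hw'
    have hcl : ∀ x ∈ Subgroup.closure {g | ∃ g₁ ∈ (⊤ : Subgroup E).lowerCentralSeries i, ∃ g₂ ∈ (⊤ : Subgroup E), ⁅g₁, g₂⁆ = g},
        x ∈ (⊤ : Subgroup E).lowerCentralSeries (i + 1) := by
      intro x hx
      change x ∈ ⁅(⊤ : Subgroup E).lowerCentralSeries i, (⊤ : Subgroup E)⁆
      rw [Subgroup.commutator_def]
      exact hx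
    induction hw' using Subgroup.closure_induction with
    | mem x hx =>
      obtain ⟨p, hp, q, -, rfl⟩ := hx
      obtain ⟨n, hn, hq⟩ := hE q
      have hm : ⁅p, q⁆ ∈ (⊤ : Subgroup E).lowerCentralSeries (i + 1) :=
        Subgroup.commutator_mem_commutator hp (Subgroup.mem_top q)
      have hcq := hc _ hm q
      rw [isOfFinOrder_iff_pow_eq_one]
      refine ⟨n, hn, ?_⟩
      have h1 : QuotientGroup.mk' L ⁅p, q⁆ * QuotientGroup.mk' L q = QuotientGroup.mk' L (p * q * p⁻¹) := by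
        rw [← map_mul]
        congr 1
        rw [commutatorElement_def]
        group
      have h2 : (QuotientGroup.mk' L ⁅p, q⁆) ^ n * (QuotientGroup.mk' L q) ^ n = QuotientGroup.mk' L (p * q ^ n * p⁻¹) := by
        rw [← hcq.mul_pow, h1, ← map_pow, conj_pow]
      have h3 : p * q ^ n * p⁻¹ = q ^ n := by
        rw [Subgroup.mem_center_iff.1 hq p]
        group
      rw [h3, map_pow] at h2
      exact mul_eq_right.1 h2
    | one => rw [map_one]; exact IsOfFinOrder.one
    | mul x y hx hy h1 h2 =>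
      rw [map_mul]
      exact (hc x (hcl x hx) y).isOfFinOrder_mul (h1 (hcl x hx)) (h2 (hcl y hy))
    | inv x hx h1 =>
      rw [map_inv]
      exact (h1 (hcl x hx)).inv
  intro w hw
  obtain ⟨m, hm, h1⟩ := isOfFinOrder_iff_pow_eq_one.1 (key w hw)
  rw [← map_pow] at h1
  have h2 : w ^ m ∈ L := (QuotientGroup.eq_one_iff _).1 h1
  have h3 := h _ h2
  obtain ⟨k, hk, h4⟩ := isOfFinOrder_iff_pow_eq_one.1 h3
  rw [← pow_mul] at h4
  exact isOfFinOrder_iff_pow_eq_one.2 ⟨m * k, Nat.mul_pos hm hk, h4⟩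

lemma lem {E : Type} [Group E] (hE : ∀ e : E, ∃ n : ℕ, 0 < n ∧ e ^ n ∈ Subgroup.center E)
    (hN : Group.IsNilpotent E) : ∀ w ∈ commutator E, IsOfFinOrder w := by
  obtain ⟨c, hc⟩ := Subgroup.nilpotent_iff_lowerCentralSeries.1 hN
  have h : ∀ j : ℕ, ∀ i : ℕ, c ≤ i + j → ∀ w ∈ (⊤ : Subgroup E).lowerCentralSeries (i + 1), IsOfFinOrder w := by
    intro j
    induction j with
    | zero =>
      intro i hi w hw
      have h1 : w ∈ (⊤ : Subgroup E).lowerCentralSeries c := Subgroup.lowerCentralSeries_antitone _ (by omega : c ≤ i + 1) hw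
      rw [hc, Subgroup.mem_bot] at h1
      rw [h1]
      exact IsOfFinOrder.one
    | succ j ih =>
      intro i hi
      exact step hE i (ih (i + 1) (by omega))
  intro w hw
  rw [← Subgroup.top_lowerCentralSeries_one] at hw
  exact h c 0 (by omega) w hw

theorem t : StSchN := by
  intro K _ N hK hN D hD hDN hcen htf u huN hu
  have := hD
  have hE : ∀ e : K ⧸ D, ∃ n : ℕ, 0 < n ∧ e ^ n ∈ Subgroup.center (K ⧸ D) := by
    intro e
    obtain ⟨g, rfl⟩ := QuotientGroup.mk'_surjective D e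
    obtain ⟨n, hn, hg⟩ := hN g
    refine ⟨n, hn, ?_⟩
    rw [Subgroup.mem_center_iff]
    intro x
    obtain ⟨y, rfl⟩ := QuotientGroup.mk'_surjective D x
    have h1 : QuotientGroup.mk' D (g ^ n * y * (g ^ n)⁻¹ * y⁻¹) = 1 :=
      (QuotientGroup.eq_one_iff _).2 (hcen _ hg y)
    simp only [map_mul, map_inv, map_pow] at h1 ⊢
    rw [mul_inv_eq_one, mul_inv_eq_iff_eq_mul] at h1
    exact h1.symm
  have := hK
  have hnil : Group.IsNilpotent (K ⧸ D) := inferInstance
  have h1 : QuotientGroup.mk' D u ∈ commutator (K ⧸ D) := by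
    have h2 : (commutator K).map (QuotientGroup.mk' D) ≤ commutator (K ⧸ D) := by
      rw [commutator_def, commutator_def, Subgroup.map_commutator]
      exact Subgroup.commutator_mono le_top le_top
    exact h2 (Subgroup.mem_map_of_mem _ hu)
  obtain ⟨k, hk, h3⟩ := isOfFinOrder_iff_pow_eq_one.1 (lem hE hnil _ h1)
  rw [← map_pow] at h3
  exact htf u huN k hk ((QuotientGroup.eq_one_iff _).1 h3)

end Pool.Agent.K7.H33.EXSCHN
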