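import Pool.Agent.K7.H39.IQ.Stm

/-! Project IQ, job INQ: an elementary inequality. -/

set_option autoImplicit false

namespace Pool.Agent.K7.H33.IQ

open Pool.Agent.K7.H39.IQ Pool.Agent.K7.H39.Cube

lemma FF1 {a b c : ℝ} (h0 : 0 ≤ c) (h1 : c ≤ b) (h2 : b ≤ a) (h : a ^ 2 + b ^ 2 + c ^ 2 = 1)
    (h3 : 59.8 * a < 48) (hc : c ≤ 1 / 4) :
    36 + 12 * a ^ 2 + 12 * c ≤ 44.85 * a + 14.95 * b + 14.95 * c := by
  have ha : 0 ≤ a := by linarith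
  have hb : 0 ≤ b := by linarith
  have hb1 : 0.53 ≤ b := by
    by_contra hcon
    push Not at hcon
    nlinarith
  have hb2 : b ≤ 0.7072 := by
    by_contra hcon
    push Not at hcon
    nlinarith
  have ha1 : 0.684 ≤ a := by
    by_contra hcon
    push Not at hcon
    nlinarith
  have ha2 : a ≤ 0.803 := by norm_num at h3 ⊢; linarith
  have e1 := mul_nonneg (sub_nonneg.2 hb1) (sub_nonneg.2 hb2)
  have e2 := mul_nonneg (sub_nonneg.2 ha1) (sub_nonneg.2 ha2)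
  have e3 : 1 - c ^ 2 ≤ 2 * a ^ 2 := by nlinarith
  have e4 := mul_nonneg h0 (sub_nonneg.2 hc)
  nlinarith

lemma FF2 {a b c : ℝ} (h0 : 0 ≤ c) (h1 : c ≤ b) (h2 : b ≤ a) (h : a ^ 2 + b ^ 2 + c ^ 2 = 1)
    (h3 : 59.8 * a < 48) (h4 : 29.9 * (a + b + c) < 48) (hc : 1 / 4 ≤ c) :
    36 + 12 * a ^ 2 + 12 * c ≤ 44.85 * a + 14.95 * b + 14.95 * c := by
  have ha : 0 ≤ a := by linarith
  have hb : 0 ≤ b := by linarith
  have ha2 : a ≤ 0.803 := by norm_num at h3 ⊢; linarith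
  have hs : a + b + c ≤ 1.6054 := by norm_num at h4 ⊢; linarith
  have ha1 : 0.77 ≤ a := by
    by_contra hcon
    push Not at hcon
    nlinarith [mul_nonneg (sub_nonneg.2 h1) (sub_nonneg.2 h2),
      mul_nonneg (sub_nonneg.2 hc) (sub_nonneg.2 h1),
      mul_nonneg (sub_nonneg.2 hcon.le) (sub_nonneg.2 h2)]
  have hb1 : 0.53 ≤ b := by
    by_contra hcon
    push Not at hcon
    nlinarith [mul_nonneg (sub_nonneg.2 ha1) (sub_nonneg.2 ha2),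
      mul_nonneg (sub_nonneg.2 h1) (sub_nonneg.2 hcon.le)]
  nlinarith [mul_nonneg (sub_nonneg.2 ha1) (sub_nonneg.2 ha2)]

/-- the main inequality for sorted absolute values -/
lemma core {a b c Ra Rb Rc S : ℝ} (h0 : 0 ≤ c) (h1 : c ≤ b) (h2 : b ≤ a)
    (h : a ^ 2 + b ^ 2 + c ^ 2 = 1) (ra : Ra ≤ 1 + a ^ 2) (rb : Rb ≤ 1 + b ^ 2)
    (rc : Rc ≤ 1 + c ^ 2) (rc' : Rc ≤ 2 * c + |a ^ 2 - b ^ 2|) (s1 : 4 * a ≤ S)
    (s2 : 2 * (a + b + c) ≤ S) : 24 + 6 * (Ra + Rb + Rc) ≤ 14.95 * S := by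
  have hb : 0 ≤ b := h0.trans h1
  rw [abs_of_nonneg (by nlinarith)] at rc'
  by_cases h3 : 59.8 * a < 48
  · by_cases h4 : 29.9 * (a + b + c) < 48
    · have h5 : 36 + 12 * a ^ 2 + 12 * c ≤ 44.85 * a + 14.95 * b + 14.95 * c := by
        rcases le_total c (1 / 4) with hc | hc
        · exact FF1 h0 h1 h2 h h3 hc
        · exact FF2 h0 h1 h2 h h3 h4 hc
      norm_num at h5 ⊢
      linarith
    · push Not at h4
      norm_num at h4 ⊢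
      linarith
  · push Not at h3
    norm_num at h3 ⊢
    linarith

lemma pair_sq {x y z : ℝ} (h : x ^ 2 + y ^ 2 + z ^ 2 = 1) :
    (Real.sqrt (2 - (x + y) ^ 2) + Real.sqrt (2 - (x - y) ^ 2)) ^ 2 =
      2 + 2 * z ^ 2 + 2 * Real.sqrt (4 * z ^ 2 + (x ^ 2 - y ^ 2) ^ 2) := by
  have h1 : 0 ≤ 2 - (x + y) ^ 2 := by nlinarith [sq_nonneg (x - y), sq_nonneg z]
  have h2 : 0 ≤ 2 - (x - y) ^ 2 := by nlinarith [sq_nonneg (x + y), sq_nonneg z]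
  have h3 : Real.sqrt (2 - (x + y) ^ 2) * Real.sqrt (2 - (x - y) ^ 2) =
      Real.sqrt (4 * z ^ 2 + (x ^ 2 - y ^ 2) ^ 2) := by
    rw [← Real.sqrt_mul h1]
    congr 1
    have : z ^ 2 = 1 - x ^ 2 - y ^ 2 := by linarith
    rw [this]; ring
  rw [add_sq, Real.sq_sqrt h1, Real.sq_sqrt h2, mul_assoc, h3]
  have : z ^ 2 = 1 - x ^ 2 - y ^ 2 := by linarith
  rw [this]; ring_nf

lemma root_le {x y z : ℝ} (h : x ^ 2 + y ^ 2 + z ^ 2 = 1) :
    Real.sqrt (4 * z ^ 2 + (x ^ 2 - y ^ 2) ^ 2) ≤ 1 + z ^ 2 := by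
  apply Real.sqrt_le_iff.2
  refine ⟨by positivity, ?_⟩
  have h1 : (x ^ 2 - y ^ 2) ^ 2 ≤ (1 - z ^ 2) ^ 2 := by
    have : 1 - z ^ 2 = x ^ 2 + y ^ 2 := by linarith
    rw [this]
    nlinarith [mul_nonneg (sq_nonneg x) (sq_nonneg y)]
  nlinarith

lemma root_le' (x y z : ℝ) :
    Real.sqrt (4 * z ^ 2 + (x ^ 2 - y ^ 2) ^ 2) ≤ 2 * |z| + |(|x|) ^ 2 - (|y|) ^ 2| := by
  apply Real.sqrt_le_iff.2
  refine ⟨by positivity, ?_⟩
  rw [sq_abs, sq_abs]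
  have h1 : |z| ^ 2 = z ^ 2 := sq_abs z
  have h2 : |x ^ 2 - y ^ 2| ^ 2 = (x ^ 2 - y ^ 2) ^ 2 := sq_abs _
  nlinarith [mul_nonneg (abs_nonneg z) (abs_nonneg (x ^ 2 - y ^ 2))]

lemma sum4 (x y z : ℝ) (S : ℝ)
    (hS : S = |x + y + z| + |x - y - z| + |-x + y - z| + |-x - y + z|) :
    4 * |x| ≤ S ∧ 4 * |y| ≤ S ∧ 4 * |z| ≤ S ∧ 2 * (|x| + |y| + |z|) ≤ S := by
  have a0 := le_abs_self (x + y + z)
  have a0' := neg_abs_le (x + y + z)
  have a1 := le_abs_self (x - y - z)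
  have a1' := neg_abs_le (x - y - z)
  have a2 := le_abs_self (-x + y - z)
  have a2' := neg_abs_le (-x + y - z)
  have a3 := le_abs_self (-x - y + z)
  have a3' := neg_abs_le (-x - y + z)
  refine ⟨?_, ?_, ?_, ?_⟩
  · rcases abs_cases x with h | h <;> linarith
  · rcases abs_cases y with h | h <;> linarith
  · rcases abs_cases z with h | h <;> linarith
  · rcases abs_cases x with h | h <;> rcases abs_cases y with h' | h' <;>
      rcases abs_cases z with h'' | h'' <;> linarith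

theorem inq : S_INQ := by
  intro u hu
  obtain ⟨x, hx⟩ : ∃ x, x = u 0 := ⟨_, rfl⟩
  obtain ⟨y, hy⟩ : ∃ y, y = u 1 := ⟨_, rfl⟩
  obtain ⟨z, hz⟩ : ∃ z, z = u 2 := ⟨_, rfl⟩
  rw [← hx, ← hy, ← hz] at hu
  have hS : ∑ i : Fin 4, |Pool.Agent.K7.H39.IQ.y i u| =
      |x + y + z| + |x - y - z| + |-x + y - z| + |-x - y + z| := by
    simp only [Fin.sum_univ_four, Pool.Agent.K7.H39.IQ.y, hx, hy, hz]
    rfl
  obtain ⟨S, hS'⟩ : ∃ S, S = ∑ i : Fin 4, |Pool.Agent.K7.H39.IQ.y i u| := ⟨_, rfl⟩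
  rw [← hS']
  obtain ⟨s1, s2, s3, s4⟩ := sum4 x y z S (hS'.trans hS)
  obtain ⟨P1, hP1⟩ : ∃ P, P = Real.sqrt (2 - (x + y) ^ 2) + Real.sqrt (2 - (x - y) ^ 2) := ⟨_, rfl⟩
  obtain ⟨P2, hP2⟩ : ∃ P, P = Real.sqrt (2 - (x + z) ^ 2) + Real.sqrt (2 - (x - z) ^ 2) := ⟨_, rfl⟩
  obtain ⟨P3, hP3⟩ : ∃ P, P = Real.sqrt (2 - (y + z) ^ 2) + Real.sqrt (2 - (y - z) ^ 2) := ⟨_, rfl⟩
  have hsix : six (fun p q r => Real.sqrt (p ^ 2 + q ^ 2 + r ^ 2 -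
      (p * u 0 + q * u 1 + r * u 2) ^ 2)) = P1 + P2 + P3 := by
    unfold six
    rw [hP1, hP2, hP3, ← hx, ← hy, ← hz]
    have e1 : (1 : ℝ) ^ 2 + 1 ^ 2 + 0 ^ 2 - (1 * x + 1 * y + 0 * z) ^ 2 = 2 - (x + y) ^ 2 := by ring
    have e2 : (1 : ℝ) ^ 2 + (-1) ^ 2 + 0 ^ 2 - (1 * x + -1 * y + 0 * z) ^ 2 = 2 - (x - y) ^ 2 := by
      ring
    have e3 : (1 : ℝ) ^ 2 + 0 ^ 2 + 1 ^ 2 - (1 * x + 0 * y + 1 * z) ^ 2 = 2 - (x + z) ^ 2 := by ring
    have e4 : (1 : ℝ) ^ 2 + 0 ^ 2 + (-1) ^ 2 - (1 * x + 0 * y + -1 * z) ^ 2 = 2 - (x - z) ^ 2 := by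
      ring
    have e5 : (0 : ℝ) ^ 2 + 1 ^ 2 + 1 ^ 2 - (0 * x + 1 * y + 1 * z) ^ 2 = 2 - (y + z) ^ 2 := by ring
    have e6 : (0 : ℝ) ^ 2 + 1 ^ 2 + (-1) ^ 2 - (0 * x + 1 * y + -1 * z) ^ 2 = 2 - (y - z) ^ 2 := by
      ring
    beta_reduce
    rw [e1, e2, e3, e4, e5, e6]
    ring
  rw [hsix]
  have q1 := pair_sq (x := x) (y := y) (z := z) hu
  have q2 := pair_sq (x := x) (y := z) (z := y) (by linarith)
  have q3 := pair_sq (x := y) (y := z) (z := x) (by linarith)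
  rw [← hP1] at q1
  rw [← hP2] at q2
  rw [← hP3] at q3
  have r1 := root_le (x := x) (y := y) (z := z) hu
  have r2 := root_le (x := x) (y := z) (z := y) (by linarith)
  have r3 := root_le (x := y) (y := z) (z := x) (by linarith)
  have r1' := root_le' x y z
  have r2' := root_le' x z y
  have r3' := root_le' y z x
  generalize Real.sqrt (4 * z ^ 2 + (x ^ 2 - y ^ 2) ^ 2) = R1 at *
  generalize Real.sqrt (4 * y ^ 2 + (x ^ 2 - z ^ 2) ^ 2) = R2 at *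
  generalize Real.sqrt (4 * x ^ 2 + (y ^ 2 - z ^ 2) ^ 2) = R3 at *
  have hCS : (P1 + P2 + P3) ^ 2 ≤ 24 + 6 * (R1 + R2 + R3) := by
    nlinarith [sq_nonneg (P1 - P2), sq_nonneg (P1 - P3), sq_nonneg (P2 - P3)]
  refine hCS.trans ?_
  rw [← sq_abs x, ← sq_abs y, ← sq_abs z] at hu
  rw [← sq_abs x] at r3
  rw [← sq_abs y] at r2
  rw [← sq_abs z] at r1
  have hx0 := abs_nonneg x
  have hy0 := abs_nonneg y
  have hz0 := abs_nonneg z
  rcases le_total |x| |y| with h1 | h1 <;> rcases le_total |y| |z| with h2 | h2 <;>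
    rcases le_total |x| |z| with h3 | h3
  · -- x ≤ y ≤ z
    have := core (a := |z|) (b := |y|) (c := |x|) (S := S) hx0 h1 h2 (by linarith) r1 r2 r3
      (by rw [abs_sub_comm]; exact r3') s3 (by linarith)
    linarith
  · -- x ≤ y ≤ z ≤ x
    have := core (a := |z|) (b := |y|) (c := |x|) (S := S) hx0 h1 h2 (by linarith) r1 r2 r3
      (by rw [abs_sub_comm]; exact r3') s3 (by linarith)
    linarith
  · -- x ≤ z ≤ y
    have := core (a := |y|) (b := |z|) (c := |x|) (S := S) hx0 h3 h2 (by linarith) r2 r1 r3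
      r3' s2 (by linarith)
    linarith
  · -- z ≤ x ≤ y
    have := core (a := |y|) (b := |x|) (c := |z|) (S := S) hz0 h3 h1 (by linarith) r2 r3 r1
      (by rw [abs_sub_comm]; exact r1') s2 (by linarith)
    linarith
  · -- y ≤ x, y ≤ z, x ≤ z
    have := core (a := |z|) (b := |x|) (c := |y|) (S := S) hy0 h1 h3 (by linarith) r1 r3 r2
      (by rw [abs_sub_comm]; exact r2') s3 (by linarith)
    linarith
  · -- y ≤ z ≤ x
    have := core (a := |x|) (b := |z|) (c := |y|) (S := S) hy0 h2 h3 (by linarith) r3 r1 r2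
      r2' s1 (by linarith)
    linarith
  · -- z ≤ y ≤ x ≤ z
    have := core (a := |x|) (b := |y|) (c := |z|) (S := S) hz0 h2 h1 (by linarith) r3 r2 r1
      r1' s1 (by linarith)
    linarith
  · -- z ≤ y ≤ x
    have := core (a := |x|) (b := |y|) (c := |z|) (S := S) hz0 h2 h1 (by linarith) r3 r2 r1
      r1' s1 (by linarith)
    linarith

end Pool.Agent.K7.H33.IQ
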