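import Pool.Agent.K7.H39.IQ.Stm

/-! Project IQ, job PER: an upper bound for the perimeters of the projections. -/

set_option autoImplicit false

namespace Pool.Agent.K7.H33.IQ

open Pool.Agent.K7.H39.IQ Pool.Agent.K7.H39.Cube Real

lemma int_abs_cos_shift (φ : ℝ) : ∫ θ in (0 : ℝ)..(2 * π), |cos (θ - φ)| = 4 := by
  have hper : Function.Periodic (fun θ : ℝ => |cos θ|) π := by
    intro θ
    simp only [cos_add_pi, abs_neg]
  have hcont : Continuous (fun θ : ℝ => |cos θ|) := continuous_cos.abs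
  have h0 : ∫ θ in (-(π / 2))..(-(π / 2) + π), |cos θ| = 2 := by
    have h1 : ∫ θ in (-(π / 2))..(-(π / 2) + π), |cos θ| =
        ∫ θ in (-(π / 2))..(-(π / 2) + π), cos θ := by
      refine intervalIntegral.integral_congr fun θ hθ => ?_
      rw [Set.uIcc_of_le (by linarith [pi_pos])] at hθ
      exact abs_of_nonneg (cos_nonneg_of_mem_Icc ⟨hθ.1, by linarith [hθ.2]⟩)
    rw [h1, integral_cos, show -(π / 2) + π = π / 2 by ring, sin_neg, sin_pi_div_two]
    norm_num
  have h2 : ∀ t : ℝ, ∫ θ in t..(t + π), |cos θ| = 2 := by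
    intro t
    rw [← h0]
    exact hper.intervalIntegral_add_eq t _
  have h3 : ∫ θ in (0 : ℝ)..(2 * π), |cos (θ - φ)| = ∫ θ in (0 - φ)..(2 * π - φ), |cos θ| :=
    intervalIntegral.integral_comp_sub_right (fun θ => |cos θ|) φ
  rw [h3, ← intervalIntegral.integral_add_adjacent_intervals (b := 0 - φ + π)
    (hcont.intervalIntegrable _ _) (hcont.intervalIntegrable _ _), h2,
    show 2 * π - φ = 0 - φ + π + π by ring, h2]
  norm_num

lemma int_abs (A B : ℝ) :
    ∫ θ in (0 : ℝ)..(2 * π), |cos θ * A + sin θ * B| = 4 * sqrt (A ^ 2 + B ^ 2) := by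
  obtain ⟨z, hz⟩ : ∃ z : ℂ, z = ⟨A, B⟩ := ⟨_, rfl⟩
  have hn : ‖z‖ = sqrt (A ^ 2 + B ^ 2) := by
    rw [Complex.norm_def, hz, Complex.normSq_mk]
    congr 1; ring
  have hA : A = ‖z‖ * cos z.arg := by
    have := Complex.norm_mul_cos_arg z
    rw [this, hz]
  have hB : B = ‖z‖ * sin z.arg := by
    have := Complex.norm_mul_sin_arg z
    rw [this, hz]
  have h1 : ∀ θ : ℝ, |cos θ * A + sin θ * B| = ‖z‖ * |cos (θ - z.arg)| := by
    intro θ
    have h2 : cos θ * A + sin θ * B = ‖z‖ * cos (θ - z.arg) := by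
      rw [cos_sub]
      calc cos θ * A + sin θ * B = cos θ * (‖z‖ * cos z.arg) + sin θ * (‖z‖ * sin z.arg) := by
            rw [← hA, ← hB]
        _ = _ := by ring
    rw [h2, abs_mul, abs_of_nonneg (norm_nonneg z)]
  rw [intervalIntegral.integral_congr (g := fun θ => ‖z‖ * |cos (θ - z.arg)|) fun θ _ => h1 θ,
    intervalIntegral.integral_const_mul, int_abs_cos_shift, hn]
  ring

theorem per (hW : S_WID) (hC : S_CPT) : S_PER := by
  intro a b
  obtain ⟨K, hK⟩ : ∃ K, K = B 2 4 := ⟨_, rfl⟩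
  rw [← hK]
  have hKc : IsCompact K := hK ▸ (hC 2 4 (by norm_num) (by norm_num)).1
  have h0K : (0 : E3) ∈ K := by
    rw [hK]
    intro i
    have : Pool.Agent.K7.H39.IQ.y i (0 : E3) = 0 := by
      fin_cases i <;> simp [Pool.Agent.K7.H39.IQ.y]
    rw [this]
    norm_num
  have hci : ∀ v : E3, Continuous (fun x : E3 => (inner ℝ v x : ℝ)) := fun v =>
    continuous_const.inner continuous_id
  have hbdd : ∀ v : E3, BddAbove ((fun x : E3 => (inner ℝ v x : ℝ)) '' K) := fun v =>
    (hKc.image (hci v)).bddAbove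
  have hnn : ∀ v : E3, 0 ≤ h K v := by
    intro v
    unfold h
    refine le_csSup (hbdd v) ⟨0, h0K, ?_⟩
    simp
  have hmem : ∀ v : E3, ∃ x ∈ K, h K v = inner ℝ v x := by
    intro v
    have h1 := (hKc.image (hci v)).sSup_mem (Set.Nonempty.image _ ⟨0, h0K⟩)
    obtain ⟨x, hx, hx'⟩ := h1
    exact ⟨x, hx, hx'.symm⟩
  have hcont : Continuous (fun v : E3 => h K v) := by
    unfold h
    exact hKc.continuous_sSup (f := fun (v x : E3) => (inner ℝ v x : ℝ)) continuous_inner
  obtain ⟨E, hE⟩ : ∃ E : ℝ → E3, E = fun θ => cos θ • a + sin θ • b := ⟨_, rfl⟩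
  have hEc : Continuous E := by
    rw [hE]
    exact (continuous_cos.smul continuous_const).add (continuous_sin.smul continuous_const)
  have hEpi : ∀ θ, E (θ + π) = -E θ := by
    intro θ
    rw [hE]
    simp only [cos_add_pi, sin_add_pi, neg_smul, neg_add_rev]
    abel
  have hV : V1 K a b = (1 / 2) * ∫ θ in (0 : ℝ)..(2 * π), h K (E θ) := by
    unfold V1
    rw [hE]
  have hHc : Continuous (fun θ => h K (E θ)) := hcont.comp hEc
  have hHc' : Continuous (fun θ => h K (-E θ)) := hcont.comp hEc.neg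
  have hper : Function.Periodic (fun θ => h K (E θ)) (2 * π) := by
    intro θ
    show h K (E (θ + 2 * π)) = h K (E θ)
    rw [show θ + 2 * π = θ + π + π by ring, hEpi, hEpi, neg_neg]
  have hshift : ∫ θ in (0 : ℝ)..(2 * π), h K (-E θ) = ∫ θ in (0 : ℝ)..(2 * π), h K (E θ) := by
    have h1 : ∫ θ in (0 : ℝ)..(2 * π), h K (-E θ) = ∫ θ in (0 : ℝ)..(2 * π), h K (E (θ + π)) := by
      refine intervalIntegral.integral_congr fun θ _ => ?_
      show h K (-E θ) = h K (E (θ + π))
      rw [hEpi]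
    rw [h1, intervalIntegral.integral_comp_add_right (fun θ => h K (E θ)) π]
    have h2 := hper.intervalIntegral_add_eq (0 + π) 0
    rw [show (0 : ℝ) + π + 2 * π = 2 * π + π by ring, show (0 : ℝ) + 2 * π = 2 * π by ring] at h2
    exact h2
  refine ⟨?_, ?_⟩
  · rw [hV]
    have := intervalIntegral.integral_nonneg (a := 0) (b := 2 * π) (f := fun θ => h K (E θ))
      (μ := MeasureTheory.volume) (by positivity) (fun θ _ => hnn _)
    linarith
  · have hsum : ∀ v : E3, h K v + h K (-v) ≤ six (fun p q r => |p * v 0 + q * v 1 + r * v 2|) := by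
      intro v
      obtain ⟨x, hx, hx'⟩ := hmem v
      obtain ⟨x', hx1, hx1'⟩ := hmem (-v)
      rw [hx', hx1', inner_neg_left, ← sub_eq_add_neg]
      exact hW v x (hK ▸ hx) x' (hK ▸ hx1)
    have hcoord : ∀ (θ : ℝ) (p q r : ℝ), p * E θ 0 + q * E θ 1 + r * E θ 2 =
        cos θ * (p * a 0 + q * a 1 + r * a 2) + sin θ * (p * b 0 + q * b 1 + r * b 2) := by
      intro θ p q r
      rw [hE]
      simp only [PiLp.add_apply, PiLp.smul_apply, smul_eq_mul]
      ring
    have hgc : ∀ p q r : ℝ, IntervalIntegrable (fun θ => |cos θ * (p * a 0 + q * a 1 + r * a 2) +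
        sin θ * (p * b 0 + q * b 1 + r * b 2)|) MeasureTheory.volume 0 (2 * π) := by
      intro p q r
      apply Continuous.intervalIntegrable
      fun_prop
    have hint : ∫ θ in (0 : ℝ)..(2 * π), (h K (E θ) + h K (-E θ)) ≤
        4 * six (fun p q r => sqrt ((p * a 0 + q * a 1 + r * a 2) ^ 2 +
          (p * b 0 + q * b 1 + r * b 2) ^ 2)) := by
      have h1 : ∫ θ in (0 : ℝ)..(2 * π), (h K (E θ) + h K (-E θ)) ≤
          ∫ θ in (0 : ℝ)..(2 * π), six (fun p q r => |cos θ * (p * a 0 + q * a 1 + r * a 2) +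
            sin θ * (p * b 0 + q * b 1 + r * b 2)|) := by
        apply intervalIntegral.integral_mono_on (by positivity)
          ((hHc.add hHc').intervalIntegrable _ _)
        · unfold six
          exact (((((hgc 1 1 0).add (hgc 1 (-1) 0)).add (hgc 1 0 1)).add (hgc 1 0 (-1))).add
            (hgc 0 1 1)).add (hgc 0 1 (-1))
        · intro θ _
          have h2 := hsum (E θ)
          simp only [hcoord] at h2
          exact h2
      refine h1.trans (le_of_eq ?_)
      unfold six
      rw [intervalIntegral.integral_add, intervalIntegral.integral_add,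
        intervalIntegral.integral_add, intervalIntegral.integral_add,
        intervalIntegral.integral_add, int_abs, int_abs, int_abs, int_abs, int_abs, int_abs]
      · ring
      · exact hgc 1 1 0
      · exact hgc 1 (-1) 0
      · exact (hgc 1 1 0).add (hgc 1 (-1) 0)
      · exact hgc 1 0 1
      · exact ((hgc 1 1 0).add (hgc 1 (-1) 0)).add (hgc 1 0 1)
      · exact hgc 1 0 (-1)
      · exact (((hgc 1 1 0).add (hgc 1 (-1) 0)).add (hgc 1 0 1)).add (hgc 1 0 (-1))
      · exact hgc 0 1 1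
      · exact ((((hgc 1 1 0).add (hgc 1 (-1) 0)).add (hgc 1 0 1)).add (hgc 1 0 (-1))).add
          (hgc 0 1 1)
      · exact hgc 0 1 (-1)
    rw [intervalIntegral.integral_add (hHc.intervalIntegrable _ _) (hHc'.intervalIntegrable _ _),
      hshift] at hint
    rw [hV]
    linarith

end Pool.Agent.K7.H33.IQ
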