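import Pool.Agent.K7.H39.IQ.Stm

/-! Project IQ, job WID: the width of the truncated tetrahedron. -/

set_option autoImplicit false

namespace Pool.Agent.K7.H33.IQ

open Pool.Agent.K7.H39.IQ Pool.Agent.K7.H39.Cube

lemma abel4 {a b c d p q r s : ℝ} (h1 : b ≤ a) (h2 : c ≤ b) (h3 : d ≤ c)
    (hz : p + q + r + s = 0) (hp : p ≤ 6) (hs : -6 ≤ s) (hpq : p + q ≤ 8) :
    a * p + b * q + c * r + d * s ≤
      2 * (|a - b| + |a - c| + |a - d| + |b - c| + |b - d| + |c - d|) := by
  rw [abs_of_nonneg (by linarith : 0 ≤ a - b), abs_of_nonneg (by linarith : 0 ≤ a - c),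
    abs_of_nonneg (by linarith : 0 ≤ a - d), abs_of_nonneg (by linarith : 0 ≤ b - c),
    abs_of_nonneg (by linarith : 0 ≤ b - d), abs_of_nonneg (by linarith : 0 ≤ c - d)]
  have e1 := mul_nonneg (sub_nonneg.2 h1) (sub_nonneg.2 hp)
  have e2 := mul_nonneg (sub_nonneg.2 h2) (sub_nonneg.2 hpq)
  have e3 := mul_nonneg (sub_nonneg.2 h3) (by linarith : 0 ≤ s + 6)
  have e4 : p = -(q + r + s) := by linarith
  subst e4
  nlinarith

lemma abel (a b c d p q r s : ℝ) (hz : p + q + r + s = 0)
    (hp : p ≤ 6 ∧ -6 ≤ p) (hq : q ≤ 6 ∧ -6 ≤ q) (hr : r ≤ 6 ∧ -6 ≤ r) (hs : s ≤ 6 ∧ -6 ≤ s)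
    (h1 : p + q ≤ 8) (h2 : p + r ≤ 8) (h3 : p + s ≤ 8) (h4 : q + r ≤ 8) (h5 : q + s ≤ 8)
    (h6 : r + s ≤ 8) :
    a * p + b * q + c * r + d * s ≤
      2 * (|a - b| + |a - c| + |a - d| + |b - c| + |b - d| + |c - d|) := by
  have s1 := abs_sub_comm a b
  have s2 := abs_sub_comm a c
  have s3 := abs_sub_comm a d
  have s4 := abs_sub_comm b c
  have s5 := abs_sub_comm b d
  have s6 := abs_sub_comm c d
  rcases le_total a b with k1 | k1 <;> rcases le_total a c with k2 | k2 <;>
    rcases le_total a d with k3 | k3 <;> rcases le_total b c with k4 | k4 <;>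
    rcases le_total b d with k5 | k5 <;> rcases le_total c d with k6 | k6 <;>
  first
  | linarith [abel4 (a := a) (b := b) (c := c) (d := d) (p := p) (q := q) (r := r) (s := s) (by assumption) (by assumption) (by assumption) (by linarith) (by linarith) (by linarith) (by linarith)]
  | linarith [abel4 (a := a) (b := b) (c := d) (d := c) (p := p) (q := q) (r := s) (s := r) (by assumption) (by assumption) (by assumption) (by linarith) (by linarith) (by linarith) (by linarith)]
  | linarith [abel4 (a := a) (b := c) (c := b) (d := d) (p := p) (q := r) (r := q) (s := s) (by assumption) (by assumption) (by assumption) (by linarith) (by linarith) (by linarith) (by linarith)]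
  | linarith [abel4 (a := a) (b := c) (c := d) (d := b) (p := p) (q := r) (r := s) (s := q) (by assumption) (by assumption) (by assumption) (by linarith) (by linarith) (by linarith) (by linarith)]
  | linarith [abel4 (a := a) (b := d) (c := b) (d := c) (p := p) (q := s) (r := q) (s := r) (by assumption) (by assumption) (by assumption) (by linarith) (by linarith) (by linarith) (by linarith)]
  | linarith [abel4 (a := a) (b := d) (c := c) (d := b) (p := p) (q := s) (r := r) (s := q) (by assumption) (by assumption) (by assumption) (by linarith) (by linarith) (by linarith) (by linarith)]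
  | linarith [abel4 (a := b) (b := a) (c := c) (d := d) (p := q) (q := p) (r := r) (s := s) (by assumption) (by assumption) (by assumption) (by linarith) (by linarith) (by linarith) (by linarith)]
  | linarith [abel4 (a := b) (b := a) (c := d) (d := c) (p := q) (q := p) (r := s) (s := r) (by assumption) (by assumption) (by assumption) (by linarith) (by linarith) (by linarith) (by linarith)]
  | linarith [abel4 (a := b) (b := c) (c := a) (d := d) (p := q) (q := r) (r := p) (s := s) (by assumption) (by assumption) (by assumption) (by linarith) (by linarith) (by linarith) (by linarith)]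
  | linarith [abel4 (a := b) (b := c) (c := d) (d := a) (p := q) (q := r) (r := s) (s := p) (by assumption) (by assumption) (by assumption) (by linarith) (by linarith) (by linarith) (by linarith)]
  | linarith [abel4 (a := b) (b := d) (c := a) (d := c) (p := q) (q := s) (r := p) (s := r) (by assumption) (by assumption) (by assumption) (by linarith) (by linarith) (by linarith) (by linarith)]
  | linarith [abel4 (a := b) (b := d) (c := c) (d := a) (p := q) (q := s) (r := r) (s := p) (by assumption) (by assumption) (by assumption) (by linarith) (by linarith) (by linarith) (by linarith)]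
  | linarith [abel4 (a := c) (b := a) (c := b) (d := d) (p := r) (q := p) (r := q) (s := s) (by assumption) (by assumption) (by assumption) (by linarith) (by linarith) (by linarith) (by linarith)]
  | linarith [abel4 (a := c) (b := a) (c := d) (d := b) (p := r) (q := p) (r := s) (s := q) (by assumption) (by assumption) (by assumption) (by linarith) (by linarith) (by linarith) (by linarith)]
  | linarith [abel4 (a := c) (b := b) (c := a) (d := d) (p := r) (q := q) (r := p) (s := s) (by assumption) (by assumption) (by assumption) (by linarith) (by linarith) (by linarith) (by linarith)]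
  | linarith [abel4 (a := c) (b := b) (c := d) (d := a) (p := r) (q := q) (r := s) (s := p) (by assumption) (by assumption) (by assumption) (by linarith) (by linarith) (by linarith) (by linarith)]
  | linarith [abel4 (a := c) (b := d) (c := a) (d := b) (p := r) (q := s) (r := p) (s := q) (by assumption) (by assumption) (by assumption) (by linarith) (by linarith) (by linarith) (by linarith)]
  | linarith [abel4 (a := c) (b := d) (c := b) (d := a) (p := r) (q := s) (r := q) (s := p) (by assumption) (by assumption) (by assumption) (by linarith) (by linarith) (by linarith) (by linarith)]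
  | linarith [abel4 (a := d) (b := a) (c := b) (d := c) (p := s) (q := p) (r := q) (s := r) (by assumption) (by assumption) (by assumption) (by linarith) (by linarith) (by linarith) (by linarith)]
  | linarith [abel4 (a := d) (b := a) (c := c) (d := b) (p := s) (q := p) (r := r) (s := q) (by assumption) (by assumption) (by assumption) (by linarith) (by linarith) (by linarith) (by linarith)]
  | linarith [abel4 (a := d) (b := b) (c := a) (d := c) (p := s) (q := q) (r := p) (s := r) (by assumption) (by assumption) (by assumption) (by linarith) (by linarith) (by linarith) (by linarith)]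
  | linarith [abel4 (a := d) (b := b) (c := c) (d := a) (p := s) (q := q) (r := r) (s := p) (by assumption) (by assumption) (by assumption) (by linarith) (by linarith) (by linarith) (by linarith)]
  | linarith [abel4 (a := d) (b := c) (c := a) (d := b) (p := s) (q := r) (r := p) (s := q) (by assumption) (by assumption) (by assumption) (by linarith) (by linarith) (by linarith) (by linarith)]
  | linarith [abel4 (a := d) (b := c) (c := b) (d := a) (p := s) (q := r) (r := q) (s := p) (by assumption) (by assumption) (by assumption) (by linarith) (by linarith) (by linarith) (by linarith)]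

theorem wid : S_WID := by
  intro v x hx x' hx'
  have i1 : (inner ℝ v x : ℝ) = v 0 * x 0 + v 1 * x 1 + v 2 * x 2 := by
    rw [EuclideanSpace.inner_eq_star_dotProduct]
    simp [dotProduct, Fin.sum_univ_three]
    ring
  have i2 : (inner ℝ v x' : ℝ) = v 0 * x' 0 + v 1 * x' 1 + v 2 * x' 2 := by
    rw [EuclideanSpace.inner_eq_star_dotProduct]
    simp [dotProduct, Fin.sum_univ_three]
    ring
  rw [i1, i2]
  have b0 : -2 ≤ x 0 + x 1 + x 2 ∧ x 0 + x 1 + x 2 ≤ 4 := hx 0
  have b1 : -2 ≤ x 0 - x 1 - x 2 ∧ x 0 - x 1 - x 2 ≤ 4 := hx 1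
  have b2 : -2 ≤ -x 0 + x 1 - x 2 ∧ -x 0 + x 1 - x 2 ≤ 4 := hx 2
  have b3 : -2 ≤ -x 0 - x 1 + x 2 ∧ -x 0 - x 1 + x 2 ≤ 4 := hx 3
  have c0 : -2 ≤ x' 0 + x' 1 + x' 2 ∧ x' 0 + x' 1 + x' 2 ≤ 4 := hx' 0
  have c1 : -2 ≤ x' 0 - x' 1 - x' 2 ∧ x' 0 - x' 1 - x' 2 ≤ 4 := hx' 1
  have c2 : -2 ≤ -x' 0 + x' 1 - x' 2 ∧ -x' 0 + x' 1 - x' 2 ≤ 4 := hx' 2
  have c3 : -2 ≤ -x' 0 - x' 1 + x' 2 ∧ -x' 0 - x' 1 + x' 2 ≤ 4 := hx' 3
  have hd : six (fun p q r => |p * v 0 + q * v 1 + r * v 2|) =
      |v 0 + v 1| + |v 0 - v 1| + |v 0 + v 2| + |v 0 - v 2| + |v 1 + v 2| + |v 1 - v 2| := by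
    unfold six
    beta_reduce
    rw [show (1 : ℝ) * v 0 + 1 * v 1 + 0 * v 2 = v 0 + v 1 by ring,
      show (1 : ℝ) * v 0 + -1 * v 1 + 0 * v 2 = v 0 - v 1 by ring,
      show (1 : ℝ) * v 0 + 0 * v 1 + 1 * v 2 = v 0 + v 2 by ring,
      show (1 : ℝ) * v 0 + 0 * v 1 + -1 * v 2 = v 0 - v 2 by ring,
      show (0 : ℝ) * v 0 + 1 * v 1 + 1 * v 2 = v 1 + v 2 by ring,
      show (0 : ℝ) * v 0 + 1 * v 1 + -1 * v 2 = v 1 - v 2 by ring]
  rw [hd]
  generalize v 0 = v0 at *
  generalize v 1 = v1 at *
  generalize v 2 = v2 at *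
  generalize x 0 = x0 at *
  generalize x 1 = x1 at *
  generalize x 2 = x2 at *
  generalize x' 0 = z0 at *
  generalize x' 1 = z1 at *
  generalize x' 2 = z2 at *
  have key := abel (v0 + v1 + v2) (v0 - v1 - v2) (-v0 + v1 - v2) (-v0 - v1 + v2)
    ((x0 + x1 + x2) - (z0 + z1 + z2)) ((x0 - x1 - x2) - (z0 - z1 - z2))
    ((-x0 + x1 - x2) - (-z0 + z1 - z2)) ((-x0 - x1 + x2) - (-z0 - z1 + z2)) (by ring)
    ⟨by linarith, by linarith⟩ ⟨by linarith, by linarith⟩ ⟨by linarith, by linarith⟩
    ⟨by linarith, by linarith⟩ (by linarith) (by linarith) (by linarith) (by linarith)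
    (by linarith) (by linarith)
  have a1 : |(v0 + v1 + v2) - (v0 - v1 - v2)| = 2 * |v1 + v2| := by
    rw [show (v0 + v1 + v2) - (v0 - v1 - v2) = 2 * (v1 + v2) by ring, abs_mul, abs_two]
  have a2 : |(v0 + v1 + v2) - (-v0 + v1 - v2)| = 2 * |v0 + v2| := by
    rw [show (v0 + v1 + v2) - (-v0 + v1 - v2) = 2 * (v0 + v2) by ring, abs_mul, abs_two]
  have a3 : |(v0 + v1 + v2) - (-v0 - v1 + v2)| = 2 * |v0 + v1| := by
    rw [show (v0 + v1 + v2) - (-v0 - v1 + v2) = 2 * (v0 + v1) by ring, abs_mul, abs_two]
  have a4 : |(v0 - v1 - v2) - (-v0 + v1 - v2)| = 2 * |v0 - v1| := by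
    rw [show (v0 - v1 - v2) - (-v0 + v1 - v2) = 2 * (v0 - v1) by ring, abs_mul, abs_two]
  have a5 : |(v0 - v1 - v2) - (-v0 - v1 + v2)| = 2 * |v0 - v2| := by
    rw [show (v0 - v1 - v2) - (-v0 - v1 + v2) = 2 * (v0 - v2) by ring, abs_mul, abs_two]
  have a6 : |(-v0 + v1 - v2) - (-v0 - v1 + v2)| = 2 * |v1 - v2| := by
    rw [show (-v0 + v1 - v2) - (-v0 - v1 + v2) = 2 * (v1 - v2) by ring, abs_mul, abs_two]
  rw [a1, a2, a3, a4, a5, a6] at key
  linarith

end Pool.Agent.K7.H33.IQ
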